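import Pool.Agent.Y969.GP.Def
import Pool.Agent.W182.KO.XX
import Pool.Agent.H448R2.GC.X1

/-!
Project GP, statement CHI: product of two factors of the functional equation.
-/

set_option autoImplicit false

namespace Pool.Agent.Y587.GP.Chi

open MeasureTheory Set Complex
open Pool.Agent.Y969.GP

lemma XF_conj (s : ℂ) : XF ((starRingEnd ℂ) s) = (starRingEnd ℂ) (XF s) := H345.Chi.XX_conj s

lemma log_lin (τ : ℝ) (h : |τ| ≤ 1 / 2) :
    |Real.log (1 + τ) - τ| ≤ 2 * τ ^ 2 ∧ |Real.log (1 - τ) + τ| ≤ 2 * τ ^ 2 := by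
  have key : ∀ x : ℝ, |x| ≤ 1 / 2 → |Real.log (1 - x) + x| ≤ 2 * x ^ 2 := by
    intro x hx
    have h1 := Real.abs_log_sub_add_sum_range_le (x := x) (by linarith) 1
    simp only [Finset.sum_range_one, zero_add, pow_one, Nat.cast_zero, div_one] at h1
    have h2 : |x| ^ (1 + 1) / (1 - |x|) ≤ 2 * x ^ 2 := by
      rw [div_le_iff₀ (by linarith)]
      have : |x| ^ (1 + 1) = x ^ 2 := by rw [← sq_abs x]
      rw [this]
      nlinarith [sq_nonneg x]
    rw [add_comm]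
    exact h1.trans h2
  constructor
  · have h1 := key (-τ) (by rwa [abs_neg])
    rw [sub_neg_eq_add, neg_sq, ← sub_eq_add_neg] at h1
    exact h1
  · exact key τ h

lemma caseA (c u y : ℝ) (hc0 : 0 < c) (hc1 : c < 1) (hu : 54 ≤ u) (hy : 10 * y ^ 2 ≤ u) :
    ‖XF (1 / 2 + (c + I * y) + I * u) * XF (1 / 2 + (c + I * y) - I * u) *
      cexp (-(2 * (c + I * y) * (Real.log (u / (2 * Real.pi)) : ℝ))) - 1‖ ≤
      242 * (1 + |y|) ^ 2 / u := by
  have hu0 : 0 < u := by linarith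
  have hpi := Real.pi_pos
  have hyu : |y| ≤ u / 2 := by
    by_contra hc
    push Not at hc
    have h1 : (u / 2) ^ 2 < |y| ^ 2 := by
      have : 0 ≤ u / 2 := by linarith
      nlinarith
    rw [sq_abs] at h1
    nlinarith
  obtain ⟨hy1, hy2⟩ := abs_le.1 hyu
  obtain ⟨e1, he1, hX1⟩ := Pool.Agent.W182.KO.XX_asymp (c := 3 / 2) (σ := 1 / 2 + c) (v := u + y)
    (by norm_num) (by linarith) (by linarith) (by linarith)
  obtain ⟨e2, he2, hX2⟩ := Pool.Agent.W182.KO.XX_asymp (c := 3 / 2) (σ := 1 / 2 + c) (v := u - y)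
    (by norm_num) (by linarith) (by linarith) (by linarith)
  have hs1 : XF (1 / 2 + (c + I * y) + I * u) =
      cexp (Pool.Agent.W182.KO.Mx (1 / 2 + c) (u + y)) * (1 + e1) := by
    rw [← hX1]
    show XF _ = XF _
    congr 1
    push_cast
    ring
  have hs2 : XF (1 / 2 + (c + I * y) - I * u) =
      cexp ((starRingEnd ℂ) (Pool.Agent.W182.KO.Mx (1 / 2 + c) (u - y))) *
        (1 + (starRingEnd ℂ) e2) := by
    have e : (1 / 2 + (c + I * y) - I * u : ℂ) =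
        (starRingEnd ℂ) (((1 / 2 + c : ℝ) : ℂ) + ((u - y : ℝ) : ℂ) * I) := by
      rw [map_add, map_mul, conj_ofReal, conj_ofReal, conj_I]
      push_cast
      ring
    rw [e, XF_conj]
    have h3 : XF (((1 / 2 + c : ℝ) : ℂ) + ((u - y : ℝ) : ℂ) * I) =
        cexp (Pool.Agent.W182.KO.Mx (1 / 2 + c) (u - y)) * (1 + e2) := hX2
    rw [h3, map_mul, ← Complex.exp_conj, map_add, map_one]
  -- the logarithms
  obtain ⟨τ, hτ⟩ : ∃ τ : ℝ, τ = y / u := ⟨_, rfl⟩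
  have hτu : u * τ = y := by rw [hτ]; field_simp
  have hτh : |τ| ≤ 1 / 2 := by
    rw [hτ, abs_div, abs_of_pos hu0, div_le_iff₀ hu0]
    linarith
  obtain ⟨hl1, hl2⟩ := log_lin τ hτh
  obtain ⟨a1, ha1⟩ : ∃ a, a = Real.log (1 + τ) := ⟨_, rfl⟩
  obtain ⟨a2, ha2⟩ : ∃ a, a = Real.log (1 - τ) := ⟨_, rfl⟩
  obtain ⟨L, hL⟩ : ∃ L, L = Real.log (u / (2 * Real.pi)) := ⟨_, rfl⟩
  rw [← ha1] at hl1
  rw [← ha2] at hl2
  obtain ⟨hτ1, hτ2⟩ := abs_le.1 hτh
  have hup : 0 < u / (2 * Real.pi) := by positivity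
  have g1 : Real.log ((u + y) / (2 * Real.pi)) = a1 + L := by
    rw [ha1, hL, ← Real.log_mul (by linarith) hup.ne']
    congr 1
    rw [← hτu]
    ring
  have g2 : Real.log ((u - y) / (2 * Real.pi)) = a2 + L := by
    rw [ha2, hL, ← Real.log_mul (by linarith) hup.ne']
    congr 1
    rw [← hτu]
    ring
  obtain ⟨z, hz⟩ : ∃ z : ℂ, z = ((c * (a1 + a2) : ℝ) : ℂ) +
    (((u + y) * a1 - (u - y) * a2 - 2 * y : ℝ) : ℂ) * I := ⟨_, rfl⟩
  have hz2 : Pool.Agent.W182.KO.Mx (1 / 2 + c) (u + y) +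
      (starRingEnd ℂ) (Pool.Agent.W182.KO.Mx (1 / 2 + c) (u - y)) +
      -(2 * (c + I * y) * (L : ℝ)) = z := by
    unfold Pool.Agent.W182.KO.Mx
    rw [map_add, map_mul, conj_ofReal, conj_ofReal, conj_I, g1, g2, hz]
    push_cast
    ring
  obtain ⟨E, hE⟩ : ∃ E : ℂ, E = (1 + e1) * (1 + (starRingEnd ℂ) e2) := ⟨_, rfl⟩
  have hprod : XF (1 / 2 + (c + I * y) + I * u) * XF (1 / 2 + (c + I * y) - I * u) *
      cexp (-(2 * (c + I * y) * (L : ℝ))) = cexp z * E := by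
    rw [hs1, hs2, ← hz2, Complex.exp_add, Complex.exp_add, hE]
    ring
  rw [← hL, hprod]
  -- bounds
  have hq0 : 0 ≤ u * τ ^ 2 := by positivity
  have hq : u * τ ^ 2 = y ^ 2 / u := by
    rw [hτ]
    field_simp
  have hτq : τ ^ 2 ≤ u * τ ^ 2 := le_mul_of_one_le_left (sq_nonneg τ) (by linarith)
  obtain ⟨r1, hr1⟩ : ∃ r, r = a1 - τ := ⟨_, rfl⟩
  obtain ⟨r2, hr2⟩ : ∃ r, r = a2 + τ := ⟨_, rfl⟩
  rw [← hr1] at hl1
  rw [← hr2] at hl2
  have hzn : ‖z‖ ≤ 10 * (y ^ 2 / u) := by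
    rw [hz, ← hq]
    refine (norm_add_le _ _).trans ?_
    rw [norm_mul, norm_I, mul_one, Complex.norm_real, Complex.norm_real, Real.norm_eq_abs,
      Real.norm_eq_abs]
    have h1 : |c * (a1 + a2)| ≤ 4 * τ ^ 2 := by
      have e : a1 + a2 = r1 + r2 := by rw [hr1, hr2]; ring
      rw [e, abs_mul, abs_of_pos hc0]
      have h9 := abs_add_le r1 r2
      have h0 := abs_nonneg (r1 + r2)
      calc c * |r1 + r2| ≤ 1 * |r1 + r2| := mul_le_mul_of_nonneg_right hc1.le h0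
        _ ≤ _ := by linarith
    have h2 : |(u + y) * a1 - (u - y) * a2 - 2 * y| ≤ 6 * (u * τ ^ 2) := by
      have e : (u + y) * a1 - (u - y) * a2 - 2 * y = u * ((1 + τ) * r1 - (1 - τ) * r2) := by
        rw [hr1, hr2, ← hτu]
        ring
      rw [e, abs_mul, abs_of_pos hu0]
      have h3 : |(1 + τ) * r1 - (1 - τ) * r2| ≤ 6 * τ ^ 2 := by
        refine (abs_sub _ _).trans ?_
        rw [abs_mul, abs_mul, abs_of_pos (by linarith : (0 : ℝ) < 1 + τ),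
          abs_of_pos (by linarith : (0 : ℝ) < 1 - τ)]
        have h4 : (1 + τ) * |r1| ≤ 3 / 2 * (2 * τ ^ 2) :=
          mul_le_mul (by linarith) hl1 (abs_nonneg _) (by norm_num)
        have h5 : (1 - τ) * |r2| ≤ 3 / 2 * (2 * τ ^ 2) :=
          mul_le_mul (by linarith) hl2 (abs_nonneg _) (by norm_num)
        linarith
      calc u * |(1 + τ) * r1 - (1 - τ) * r2| ≤ u * (6 * τ ^ 2) :=
            mul_le_mul_of_nonneg_left h3 hu0.le
        _ = 6 * (u * τ ^ 2) := by ring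
    linarith
  have hz1 : ‖z‖ ≤ 1 := by
    refine hzn.trans ?_
    rw [← mul_div_assoc, div_le_one hu0]
    exact hy
  have hexp : ‖cexp z - 1‖ ≤ 20 * (y ^ 2 / u) := by
    have := Complex.norm_exp_sub_one_le hz1
    linarith
  have hn1 : ‖e1‖ ≤ 54 / u := by
    refine he1.trans ?_
    rw [div_le_div_iff₀ (by linarith) hu0]
    linarith
  have hn2 : ‖(starRingEnd ℂ) e2‖ ≤ 54 / u := by
    rw [RCLike.norm_conj]
    refine he2.trans ?_
    rw [div_le_div_iff₀ (by linarith) hu0]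
    linarith
  have h54 : 54 / u ≤ 1 := by rw [div_le_one hu0]; exact hu
  have hEn : ‖E‖ ≤ 4 := by
    rw [hE, norm_mul]
    have h1 : ‖1 + e1‖ ≤ 2 := by
      refine (norm_add_le _ _).trans ?_
      rw [norm_one]
      linarith
    have h2 : ‖1 + (starRingEnd ℂ) e2‖ ≤ 2 := by
      refine (norm_add_le _ _).trans ?_
      rw [norm_one]
      linarith
    calc ‖1 + e1‖ * ‖1 + (starRingEnd ℂ) e2‖ ≤ 2 * 2 :=
          mul_le_mul h1 h2 (norm_nonneg _) (by norm_num)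
      _ = 4 := by norm_num
  have hE1 : ‖E - 1‖ ≤ 162 / u := by
    have e : E - 1 = e1 + (starRingEnd ℂ) e2 + e1 * (starRingEnd ℂ) e2 := by
      rw [hE]
      ring
    rw [e]
    refine (norm_add_le _ _).trans ?_
    have h1 := norm_add_le e1 ((starRingEnd ℂ) e2)
    have h2 : ‖e1 * (starRingEnd ℂ) e2‖ ≤ 54 / u := by
      rw [norm_mul]
      calc ‖e1‖ * ‖(starRingEnd ℂ) e2‖ ≤ 54 / u * 1 :=
            mul_le_mul hn1 (hn2.trans h54) (norm_nonneg _) (by positivity)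
        _ = 54 / u := mul_one _
    have e3 : 162 / u = 54 / u + 54 / u + 54 / u := by ring
    rw [e3]
    linarith
  have hfin : cexp z * E - 1 = (cexp z - 1) * E + (E - 1) := by ring
  rw [hfin]
  refine (norm_add_le _ _).trans ?_
  rw [norm_mul]
  have h1 : ‖cexp z - 1‖ * ‖E‖ ≤ 20 * (y ^ 2 / u) * 4 :=
    mul_le_mul hexp hEn (norm_nonneg _) (by positivity)
  have h2 : 20 * (y ^ 2 / u) * 4 + 162 / u ≤ 242 * (1 + |y|) ^ 2 / u := by
    have e : 20 * (y ^ 2 / u) * 4 + 162 / u = (80 * y ^ 2 + 162) / u := by ring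
    rw [e]
    apply div_le_div_of_nonneg_right _ hu0.le
    have h9 : (1 + |y|) ^ 2 = 1 + 2 * |y| + y ^ 2 := by
      rw [← sq_abs y]
      ring
    rw [h9]
    linarith [abs_nonneg y, sq_nonneg y]
  linarith

lemma caseB {C1 : ℝ} (hC1 : 0 < C1) (hX : ∀ w : ℂ, 1 / 2 ≤ w.re → w.re ≤ 3 / 2 →
    ‖XF w‖ ≤ C1 * (1 + |w.im|) ^ (w.re - 1 / 2)) (c u y : ℝ) (hc0 : 0 < c) (hc1 : c < 1)
    (hu : 1 ≤ u) (huy : u ≤ 54 * (1 + |y|) ^ 2) :
    ‖XF (1 / 2 + (c + I * y) + I * u) * XF (1 / 2 + (c + I * y) - I * u) *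
      cexp (-(2 * (c + I * y) * (Real.log (u / (2 * Real.pi)) : ℝ))) - 1‖ ≤
      54 * (C1 ^ 2 * 55 ^ 2 * (2 * Real.pi) ^ 2 + 1) * (1 + |y|) ^ 6 / u := by
  have hpi := Real.pi_gt_three
  have hu0 : 0 < u := by linarith
  obtain ⟨Y, hY⟩ : ∃ Y, Y = 1 + |y| := ⟨_, rfl⟩
  have hY1 : 1 ≤ Y := by rw [hY]; linarith [abs_nonneg y]
  rw [← hY] at huy ⊢
  have hYY : Y ≤ Y ^ 2 := by nlinarith
  have key : ∀ (w : ℂ), w.re = 1 / 2 + c → |w.im| ≤ |y| + u → ‖XF w‖ ≤ C1 * (55 * Y ^ 2) := by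
    intro w hw hwi
    refine (hX w (by rw [hw]; linarith) (by rw [hw]; linarith)).trans ?_
    refine mul_le_mul_of_nonneg_left ?_ hC1.le
    have h1 : (1 : ℝ) ≤ 1 + |w.im| := by linarith [abs_nonneg w.im]
    have h2 : (1 + |w.im|) ^ (w.re - 1 / 2) ≤ (1 + |w.im|) ^ (1 : ℝ) :=
      Real.rpow_le_rpow_of_exponent_le h1 (by rw [hw]; linarith)
    rw [Real.rpow_one] at h2
    refine h2.trans ?_
    have h3 : 1 + |y| ≤ Y ^ 2 := by rw [← hY]; exact hYY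
    linarith
  have k1 := key (1 / 2 + (c + I * y) + I * u) (by simp) (by
    have e : (1 / 2 + ((c : ℂ) + I * y) + I * u).im = y + u := by simp
    rw [e]
    refine (abs_add_le _ _).trans ?_
    rw [abs_of_pos hu0])
  have k2 := key (1 / 2 + (c + I * y) - I * u) (by simp) (by
    have e : (1 / 2 + ((c : ℂ) + I * y) - I * u).im = y - u := by simp
    rw [e]
    refine (abs_sub _ _).trans ?_
    rw [abs_of_pos hu0])
  have k3 : ‖cexp (-(2 * (c + I * y) * (Real.log (u / (2 * Real.pi)) : ℝ)))‖ ≤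
      (2 * Real.pi) ^ 2 := by
    rw [Complex.norm_exp]
    have e : (-(2 * ((c : ℂ) + I * y) * (Real.log (u / (2 * Real.pi)) : ℝ))).re =
        -(2 * c * Real.log (u / (2 * Real.pi))) := by simp
    rw [e]
    have h1 : Real.log (u / (2 * Real.pi)) = Real.log u - Real.log (2 * Real.pi) :=
      Real.log_div hu0.ne' (by positivity)
    have h2 : 0 ≤ Real.log u := Real.log_nonneg hu
    have h3 : 0 ≤ Real.log (2 * Real.pi) := Real.log_nonneg (by linarith)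
    have h4 : (2 * Real.pi) ^ 2 = Real.exp (2 * Real.log (2 * Real.pi)) := by
      rw [two_mul (Real.log _), Real.exp_add, Real.exp_log (by positivity)]
      ring
    rw [h4, h1]
    apply Real.exp_le_exp.2
    nlinarith [mul_nonneg hc0.le h2]
  have h1 : ‖XF (1 / 2 + (c + I * y) + I * u) * XF (1 / 2 + (c + I * y) - I * u) *
      cexp (-(2 * (c + I * y) * (Real.log (u / (2 * Real.pi)) : ℝ)))‖ ≤
      (C1 * (55 * Y ^ 2)) * (C1 * (55 * Y ^ 2)) * (2 * Real.pi) ^ 2 := by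
    rw [norm_mul, norm_mul]
    exact mul_le_mul (mul_le_mul k1 k2 (norm_nonneg _) (by positivity)) k3 (norm_nonneg _)
      (by positivity)
  have h2 := norm_sub_le (XF (1 / 2 + (c + I * y) + I * u) * XF (1 / 2 + (c + I * y) - I * u) *
      cexp (-(2 * (c + I * y) * (Real.log (u / (2 * Real.pi)) : ℝ)))) 1
  rw [norm_one] at h2
  refine h2.trans ?_
  rw [le_div_iff₀ hu0]
  obtain ⟨B, hB⟩ : ∃ B, B = C1 ^ 2 * 55 ^ 2 * (2 * Real.pi) ^ 2 := ⟨_, rfl⟩
  have hB0 : 0 ≤ B := by rw [hB]; positivity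
  have h3 : (C1 * (55 * Y ^ 2)) * (C1 * (55 * Y ^ 2)) * (2 * Real.pi) ^ 2 = B * Y ^ 4 := by
    rw [hB]
    ring
  rw [h3] at h1
  rw [← hB]
  have hY4 : 1 ≤ Y ^ 4 := one_le_pow₀ hY1
  calc (‖XF (1 / 2 + (c + I * y) + I * u) * XF (1 / 2 + (c + I * y) - I * u) *
      cexp (-(2 * (c + I * y) * (Real.log (u / (2 * Real.pi)) : ℝ)))‖ + 1) * u
      ≤ (B * Y ^ 4 + 1 * Y ^ 4) * (54 * Y ^ 2) := by
        refine mul_le_mul (by linarith) huy hu0.le (by positivity)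
    _ = 54 * (B + 1) * Y ^ 6 := by ring

theorem t_CHI : S_CHI := by
  intro c hc0 hc1
  obtain ⟨C1, hC1, hX⟩ := Pool.Agent.H448R2.GC.XX_upper (3 / 2)
  have hX' : ∀ w : ℂ, 1 / 2 ≤ w.re → w.re ≤ 3 / 2 →
    ‖XF w‖ ≤ C1 * (1 + |w.im|) ^ (w.re - 1 / 2) := hX
  refine ⟨54 * (C1 ^ 2 * 55 ^ 2 * (2 * Real.pi) ^ 2 + 1) + 242, 6, by positivity,
    fun u y hu => ?_⟩
  have hu0 : 0 < u := by linarith
  have hY1 : 1 ≤ 1 + |y| := by linarith [abs_nonneg y]
  have hsq : y ^ 2 = |y| ^ 2 := (sq_abs y).symm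
  by_cases h : 54 ≤ u ∧ 10 * y ^ 2 ≤ u
  · refine (caseA c u y hc0 hc1 h.1 h.2).trans ?_
    apply div_le_div_of_nonneg_right _ hu0.le
    have h1 : (1 + |y|) ^ 2 ≤ (1 + |y|) ^ 6 := pow_le_pow_right₀ hY1 (by norm_num)
    have h2 : (0 : ℝ) ≤ 54 * (C1 ^ 2 * 55 ^ 2 * (2 * Real.pi) ^ 2 + 1) := by positivity
    have h3 : (0 : ℝ) ≤ (1 + |y|) ^ 6 := by positivity
    nlinarith [mul_nonneg h2 h3]
  · have huy : u ≤ 54 * (1 + |y|) ^ 2 := by
      have h0 := abs_nonneg y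
      by_cases h54 : 54 ≤ u
      · have : u < 10 * y ^ 2 := by
          by_contra hc
          exact h ⟨h54, not_lt.1 hc⟩
        nlinarith
      · nlinarith
    refine (caseB hC1 hX' c u y hc0 hc1 hu huy).trans ?_
    apply div_le_div_of_nonneg_right _ hu0.le
    have h3 : (0 : ℝ) ≤ (1 + |y|) ^ 6 := by positivity
    nlinarith

end Pool.Agent.Y587.GP.Chi
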